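import Mathlib

/-! Symmetric global minimisers of the quadrature energy for `n = 2`. -/

namespace Pool.Agent.Results.MP_76a7f5_an.Two
open Set Real

/-- `g(x) = x⁻¹ ln((3+x)/(3-x))`, `g(0) = 2/3`. -/
noncomputable def g (x : ℝ) : ℝ := if x = 0 then 2 / 3 else x⁻¹ * log ((3 + x) / (3 - x))

/-- the energy `F_n`. -/
noncomputable def F (n : ℕ) (x : Fin n → ℝ) : ℝ :=
  1 / n * ∑ i, ∑ j, 1 / (3 - x i * x j) - ∑ i, g (x i)

theorem hg (x : ℝ) (hx : |x| ≤ 1) :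
    HasSum (fun k : ℕ => 2 * (1 / (2 * k + 1)) / 3 ^ (2 * k + 1) * (x ^ 2) ^ k) (g x) := by
  by_cases h0 : x = 0
  · subst h0
    have := hasSum_single (f := fun k : ℕ =>
      (2:ℝ) * (1 / (2 * k + 1)) / 3 ^ (2 * k + 1) * ((0:ℝ) ^ 2) ^ k) 0 (fun k hk => by simp [hk])
    simpa [g] using this
  · have h1 : |x / 3| < 1 := by rw [abs_div]; norm_num; linarith
    have h2 := (hasSum_log_sub_log_of_abs_lt_one h1).mul_left x⁻¹
    have hb := abs_le.1 hx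
    have e : g x = x⁻¹ * (log (1 + x / 3) - log (1 - x / 3)) := by
      rw [g, if_neg h0, ← log_div (by linarith) (by linarith)]
      congr 2
      have : 3 - x ≠ 0 := by linarith
      have : 1 - x / 3 ≠ 0 := by linarith
      field_simp
    rw [e]
    have e2 : (fun k : ℕ => 2 * (1 / (2 * (k:ℝ) + 1)) / 3 ^ (2 * k + 1) * (x ^ 2) ^ k) =
        fun k : ℕ => x⁻¹ * (2 * (1 / (2 * (k:ℝ) + 1)) * (x / 3) ^ (2 * k + 1)) := by
      funext k
      rw [div_pow, ← pow_mul, pow_succ x]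
      field_simp
    rw [e2]; exact h2

theorem hq (x : ℝ) (hx : |x| ≤ 1) :
    HasSum (fun k : ℕ => 1 / 3 ^ (k + 1) * (x ^ 2) ^ k) (1 / (3 - x * x)) := by
  have hb := abs_le.1 hx
  have h1 : x ^ 2 / 3 < 1 := by nlinarith
  have h2 := (hasSum_geometric_of_lt_one (by positivity) h1).mul_left (1 / 3)
  have e : 1 / (3 - x * x) = 1 / 3 * (1 - x ^ 2 / 3)⁻¹ := by
    have : 3 - x * x ≠ 0 := by nlinarith
    have : 1 - x ^ 2 / 3 ≠ 0 := by nlinarith
    have : 3 - x ^ 2 ≠ 0 := by nlinarith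
    field_simp
  have e2 : (fun k : ℕ => 1 / 3 ^ (k + 1) * (x ^ 2) ^ k) =
      fun k : ℕ => 1 / 3 * (x ^ 2 / 3) ^ k := by
    funext k
    rw [div_pow, pow_succ]; field_simp
  rw [e, e2]; exact h2

/-- coefficients of `1/(2(3-x²)) - g x`. -/
noncomputable def c (k : ℕ) : ℝ :=
  1 / 2 * (1 / 3 ^ (k + 1)) - 2 * (1 / (2 * k + 1)) / 3 ^ (2 * k + 1)

theorem hc (k : ℕ) : 0 ≤ c (k + 1) := by
  have h1 : (3:ℝ) ^ (2 * (k + 1) + 1) = 3 ^ (k + 1 + 1) * (3 * 3 ^ k) := by ring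
  have h2 : (1:ℝ) ≤ 3 ^ k := one_le_pow₀ (by norm_num)
  have h3 : (0:ℝ) ≤ k := Nat.cast_nonneg k
  have h4 : (0:ℝ) < 3 ^ (k + 1 + 1) := by positivity
  unfold c
  rw [h1, sub_nonneg, div_le_iff₀ (by positivity)]
  have e : 1 / 2 * (1 / (3:ℝ) ^ (k + 1 + 1)) * (3 ^ (k + 1 + 1) * (3 * 3 ^ k)) = 3 / 2 * 3 ^ k := by
    field_simp
  rw [e]
  have : (1:ℝ) / (2 * ((k + 1 : ℕ) : ℝ) + 1) ≤ 1 / 3 := by
    apply one_div_le_one_div_of_le (by norm_num); push_cast; linarith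
  linarith

theorem hh (x : ℝ) (hx : |x| ≤ 1) :
    HasSum (fun k : ℕ => c k * (x ^ 2) ^ k) (1 / 2 * (1 / (3 - x * x)) - g x) := by
  have := ((hq x hx).mul_left (1 / 2)).sub (hg x hx)
  have e : (fun k : ℕ => c k * (x ^ 2) ^ k) = fun k : ℕ => 1 / 2 * (1 / 3 ^ (k + 1) * (x ^ 2) ^ k)
      - 2 * (1 / (2 * k + 1)) / 3 ^ (2 * k + 1) * (x ^ 2) ^ k := by
    funext k; unfold c; ring
  rw [e]; exact this

theorem g_neg (x : ℝ) (hx : |x| ≤ 1) : g (-x) = g x := by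
  have := hg (-x) (by rwa [abs_neg])
  rw [neg_sq] at this
  exact this.unique (hg x hx)

theorem key (x y : ℝ) (hx : |x| ≤ 1) (hy : |y| ≤ 1) :
    ∃ a, |a| ≤ 1 ∧ F 2 ![a, -a] ≤ F 2 ![x, y] := by
  have hs : |x * y| ≤ 1 := by rw [abs_mul]; nlinarith [abs_nonneg x, abs_nonneg y]
  set a := √|x * y| with ha
  have ha2 : a ^ 2 = |x * y| := Real.sq_sqrt (abs_nonneg _)
  have ha1 : |a| ≤ 1 := by
    rw [abs_of_nonneg (Real.sqrt_nonneg _)]; exact Real.sqrt_le_one.2 hs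
  refine ⟨a, ha1, ?_⟩
  have h1 := hasSum_le (fun k => ?_) ((hh a ha1).add (hh a ha1)) ((hh x hx).add (hh y hy))
  · have h2 : 1 / (3 + a * a) ≤ 1 / (3 - x * y) := by
      have := abs_le.1 hs
      apply one_div_le_one_div_of_le (by linarith)
      nlinarith [neg_abs_le (x * y)]
    simp only [F, Fin.sum_univ_two, Matrix.cons_val_zero, Matrix.cons_val_one, g_neg a ha1,
      mul_neg, neg_mul, sub_neg_eq_add, mul_comm y x]
    push_cast
    rw [← sub_eq_add_neg]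
    linarith
  · rcases k with _ | k
    · simp
    · have e : (a ^ 2) ^ (k + 1) = |x| ^ (k + 1) * |y| ^ (k + 1) := by rw [ha2, abs_mul, mul_pow]
      have ex : (x ^ 2) ^ (k + 1) = (|x| ^ (k + 1)) ^ 2 := by rw [← sq_abs x]; ring
      have ey : (y ^ 2) ^ (k + 1) = (|y| ^ (k + 1)) ^ 2 := by rw [← sq_abs y]; ring
      rw [e, ex, ey]
      nlinarith [mul_nonneg (hc k) (sq_nonneg (|x| ^ (k + 1) - |y| ^ (k + 1)))]

theorem cont : ContinuousOn (fun a : ℝ => F 2 ![a, -a]) (Icc (-1) 1) := by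
  have hgc : ContinuousOn g (Icc (-1) 1) := by
    have h1 : ContinuousOn (fun x : ℝ => ∑' k : ℕ,
        2 * (1 / (2 * (k:ℝ) + 1)) / 3 ^ (2 * k + 1) * (x ^ 2) ^ k) (Icc (-1) 1) := by
      refine continuousOn_tsum (fun k => by fun_prop) (hg 1 (by simp)).summable fun k x hx => ?_
      have hx2 : x ^ 2 ≤ 1 ^ 2 := by nlinarith [hx.1, hx.2]
      rw [Real.norm_of_nonneg (by positivity)]
      gcongr
    exact h1.congr fun x hx => ((hg x (abs_le.2 hx)).tsum_eq).symm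
  have e : EqOn (fun a : ℝ => F 2 ![a, -a])
      (fun a => 1 / (3 - a * a) + 1 / (3 + a * a) - (g a + g a)) (Icc (-1) 1) := fun a ha => by
    simp only [F, Fin.sum_univ_two, Matrix.cons_val_zero, Matrix.cons_val_one,
      g_neg a (abs_le.2 ha), mul_neg, neg_mul, sub_neg_eq_add]
    push_cast; ring
  refine ContinuousOn.congr ?_ e
  refine ContinuousOn.sub (ContinuousOn.add ?_ ?_) (hgc.add hgc)
  · exact continuousOn_const.div (by fun_prop) fun a ha => by nlinarith [ha.1, ha.2]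
  · exact continuousOn_const.div (by fun_prop) fun a ha => by nlinarith [mul_self_nonneg a]

theorem result : ∃ a ∈ Icc (-1 : ℝ) 1, ∀ x : Fin 2 → ℝ, (∀ i, x i ∈ Icc (-1 : ℝ) 1) →
    F 2 ![a, -a] ≤ F 2 x := by
  obtain ⟨a, ha, hm⟩ := isCompact_Icc.exists_isMinOn ⟨0, by norm_num⟩ cont
  refine ⟨a, ha, fun x hx => ?_⟩
  obtain ⟨b, hb, hle⟩ := key (x 0) (x 1) (abs_le.2 (hx 0)) (abs_le.2 (hx 1))
  have e : x = ![x 0, x 1] := by funext i; fin_cases i <;> rfl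
  rw [e]
  exact (hm (abs_le.1 hb)).trans hle

end Pool.Agent.Results.MP_76a7f5_an.Two
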